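import Mathlib

set_option autoImplicit false

/-!
# The grammic monoids of rank at least 5 are not finitely presented

The letters `1, …, n` are the elements `0, …, n - 1` of `Fin n`.

Idea: the words `u k = 5·4455·2234·5^k·1^(k+3)·2` and `v k = 4·3555·2244·5^k·1^(k+3)·2` are
equal in the grammic monoid, but they are not connected by a chain of words in which every two
consecutive words have equal first letters and grammic-equivalent rests, or equal last letters and
grammic-equivalent rests.
-/

namespace Pool.Agent.Results.MP_be768e_al.NotFinitelyPresented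

/-! ## Definitions used in the statement -/

/-- `phi w p q` is the largest length of a weakly increasing scattered subsequence of the word `w`
all of whose letters lie in the interval `[p, q]`. -/
noncomputable def phi {α : Type*} [LinearOrder α] (w : List α) (p q : α) : ℕ :=
  sSup {m | ∃ s : List α, s.Sublist w ∧ s.Pairwise (· ≤ ·) ∧ (∀ x ∈ s, p ≤ x ∧ x ≤ q) ∧
    s.length = m}

section General

variable {α : Type*} [LinearOrder α]

theorem le_phi {w s : List α} {p q : α} (h1 : s.Sublist w) (h2 : s.Pairwise (· ≤ ·))
    (h3 : ∀ x ∈ s, p ≤ x ∧ x ≤ q) : s.length ≤ phi w p q := by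
  apply le_csSup
  · refine ⟨w.length, ?_⟩
    rintro m ⟨s, hs, -, -, rfl⟩
    exact hs.length_le
  · exact ⟨s, h1, h2, h3, rfl⟩

theorem exists_phi (w : List α) (p q : α) : ∃ s : List α, s.Sublist w ∧ s.Pairwise (· ≤ ·) ∧
    (∀ x ∈ s, p ≤ x ∧ x ≤ q) ∧ s.length = phi w p q := by
  have : phi w p q ∈ {m | ∃ s : List α, s.Sublist w ∧ s.Pairwise (· ≤ ·) ∧
      (∀ x ∈ s, p ≤ x ∧ x ≤ q) ∧ s.length = m} := by
    apply Nat.sSup_mem
    · exact ⟨0, [], by simp⟩
    · refine ⟨w.length, ?_⟩
      rintro m ⟨s, hs, -, -, rfl⟩
      exact hs.length_le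
  exact this

theorem exists_of_le {w : List α} {p q : α} {m : ℕ} (h : m ≤ phi w p q) :
    ∃ s : List α, s.Sublist w ∧ s.Pairwise (· ≤ ·) ∧
      (∀ x ∈ s, p ≤ x ∧ x ≤ q) ∧ s.length = m := by
  obtain ⟨s, h1, h2, h3, h4⟩ := exists_phi w p q
  refine ⟨s.take m, (List.take_sublist m s).trans h1, h2.sublist (List.take_sublist m s),
    fun x hx => h3 x (List.mem_of_mem_take hx), ?_⟩
  rw [List.length_take]
  omega

theorem phi_le {w : List α} {p q : α} {m : ℕ}
    (h : ∀ s : List α, s.Sublist w → s.Pairwise (· ≤ ·) → (∀ x ∈ s, p ≤ x ∧ x ≤ q) →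
      s.length ≤ m) : phi w p q ≤ m := by
  obtain ⟨s, h1, h2, h3, h4⟩ := exists_phi w p q
  rw [← h4]
  exact h s h1 h2 h3

theorem phi_mono {w w' : List α} {p q : α} (h : w.Sublist w') : phi w p q ≤ phi w' p q :=
  phi_le fun _ h1 h2 h3 => le_phi (h1.trans h) h2 h3

theorem phi_append_le {u v u' v' : List α} (hu : ∀ p q : α, p ≤ q → phi u p q ≤ phi u' p q)
    (hv : ∀ p q : α, p ≤ q → phi v p q ≤ phi v' p q) (p q : α) (hpq : p ≤ q) :
    phi (u ++ v) p q ≤ phi (u' ++ v') p q := by
  apply phi_le
  intro s hs hs2 hs3
  obtain ⟨s1, s2, rfl, h1, h2⟩ := List.sublist_append_iff.mp hs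
  rw [List.pairwise_append] at hs2
  obtain ⟨ha, hb, hc⟩ := hs2
  obtain ⟨r, hpr, hrq, hr1, hr2⟩ : ∃ r, p ≤ r ∧ r ≤ q ∧ (∀ x ∈ s1, x ≤ r) ∧
      (∀ x ∈ s2, r ≤ x) := by
    rcases List.eq_nil_or_concat s1 with rfl | ⟨t, r, rfl⟩
    · exact ⟨p, le_rfl, hpq, by simp, fun x hx => (hs3 x (by simpa using hx)).1⟩
    · refine ⟨r, (hs3 r (by simp)).1, (hs3 r (by simp)).2, ?_, fun x hx => hc r (by simp) x hx⟩
      intro x hx
      rw [List.concat_eq_append, List.pairwise_append] at ha
      rw [List.concat_eq_append, List.mem_append, List.mem_singleton] at hx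
      rcases hx with hx | rfl
      · exact ha.2.2 x hx r (by simp)
      · exact le_rfl
  have k1 : s1.length ≤ phi u' p r :=
    (le_phi h1 ha fun x hx => ⟨(hs3 x (by simp [hx])).1, hr1 x hx⟩).trans (hu p r hpr)
  have k2 : s2.length ≤ phi v' r q :=
    (le_phi h2 hb fun x hx => ⟨hr2 x hx, (hs3 x (by simp [hx])).2⟩).trans (hv r q hrq)
  obtain ⟨t1, a1, a2, a3, a4⟩ := exists_of_le k1
  obtain ⟨t2, b1, b2, b3, b4⟩ := exists_of_le k2
  have := le_phi (p := p) (q := q) (a1.append b1) (List.pairwise_append.mpr
    ⟨a2, b2, fun x hx y hy => (a3 x hx).2.trans (b3 y hy).1⟩) (by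
      intro x hx
      rcases List.mem_append.mp hx with hx | hx
      · exact ⟨(a3 x hx).1, (a3 x hx).2.trans hrq⟩
      · exact ⟨hpr.trans (b3 x hx).1, (b3 x hx).2⟩)
  simpa [a4, b4] using this

end General

/-- The grammic congruence of rank `n`. -/
def gram (n : ℕ) : Con (FreeMonoid (Fin n)) where
  r u v := ∀ p q : Fin n, p ≤ q → phi u.toList p q = phi v.toList p q
  iseqv := ⟨fun _ _ _ _ => rfl, fun h p q hpq => (h p q hpq).symm,
    fun h h' p q hpq => (h p q hpq).trans (h' p q hpq)⟩
  mul' := by
    intro u u' v v' hu hv p q hpq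
    rw [FreeMonoid.toList_mul, FreeMonoid.toList_mul]
    exact le_antisymm
      (phi_append_le (fun p q h => (hu p q h).le) (fun p q h => (hv p q h).le) p q hpq)
      (phi_append_le (fun p q h => (hu p q h).ge) (fun p q h => (hv p q h).ge) p q hpq)

/-- The grammic monoid of rank `n`. -/
abbrev Grammic (n : ℕ) : Type := (gram n).Quotient

/-- A monoid is finitely presented if it is isomorphic to `⟨A | R⟩` with `A` and `R` finite. -/
def IsFinitelyPresented (M : Type) [Monoid M] : Prop :=
  ∃ (A : Type) (_ : Finite A) (R : Set (FreeMonoid A × FreeMonoid A)), R.Finite ∧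
    Nonempty (M ≃* (conGen fun u v => (u, v) ∈ R).Quotient)

/-! ## Computing `phi` -/

section Compute

variable {α : Type*} [LinearOrder α]

theorem phi_cons (x : α) (w : List α) (p q : α) :
    phi (x :: w) p q = if p ≤ x ∧ x ≤ q then max (phi w p q) (phi w x q + 1) else phi w p q := by
  split_ifs with h
  · apply le_antisymm
    · apply phi_le
      intro s hs hs2 hs3
      cases hs with
      | cons _ hs => exact (le_phi hs hs2 hs3).trans (le_max_left _ _)
      | cons_cons _ hs =>
        rename_i t
        rw [List.pairwise_cons] at hs2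
        refine le_trans ?_ (le_max_right _ _)
        rw [List.length_cons]
        exact Nat.succ_le_succ (le_phi hs hs2.2 fun y hy =>
          ⟨hs2.1 y hy, (hs3 y (List.mem_cons_of_mem _ hy)).2⟩)
    · apply max_le
      · exact phi_mono (List.sublist_cons_self x w)
      · obtain ⟨s, h1, h2, h3, h4⟩ := exists_phi w x q
        have := le_phi (p := p) (q := q) (h1.cons_cons x) (List.pairwise_cons.mpr
          ⟨fun y hy => (h3 y hy).1, h2⟩) (by
            intro y hy
            rcases List.mem_cons.mp hy with rfl | hy
            · exact h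
            · exact ⟨h.1.trans (h3 y hy).1, (h3 y hy).2⟩)
        simpa [h4] using this
  · apply le_antisymm
    · apply phi_le
      intro s hs hs2 hs3
      cases hs with
      | cons _ hs => exact le_phi hs hs2 hs3
      | cons_cons _ hs => exact absurd (hs3 x (by simp)) h
    · exact phi_mono (List.sublist_cons_self x w)

theorem phi_nil (p q : α) : phi ([] : List α) p q = 0 :=
  Nat.le_zero.mp (phi_le fun s hs _ _ => by simp [List.sublist_nil.mp hs])

/-- computable version of `phi` -/
def cphi : List ℕ → ℕ → ℕ → ℕ
  | [], _, _ => 0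
  | x :: w, p, q => if p ≤ x ∧ x ≤ q then max (cphi w p q) (cphi w x q + 1) else cphi w p q

theorem phi_eq_cphi (w : List ℕ) : ∀ p q, phi w p q = cphi w p q := by
  induction w with
  | nil => intro p q; exact phi_nil p q
  | cons x w ih =>
    intro p q
    rw [phi_cons, cphi, ih, ih]

theorem phi_append_replicate (w : List α) (m : ℕ) (x p q : α) :
    phi (w ++ List.replicate m x) p q =
      if p ≤ x ∧ x ≤ q then max (phi w p q) (phi w p x + m) else phi w p q := by
  have hle : phi w p q ≤ phi (w ++ List.replicate m x) p q :=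
    phi_mono (List.sublist_append_left _ _)
  split_ifs with h
  · apply le_antisymm
    · apply phi_le
      intro s hs hs2 hs3
      obtain ⟨s1, s2, rfl, h1, h2⟩ := List.sublist_append_iff.mp hs
      rw [List.pairwise_append] at hs2
      have hl := h2.length_le
      rw [List.length_replicate] at hl
      rcases s2 with _ | ⟨y, t⟩
      · rw [List.append_nil]
        exact (le_phi h1 hs2.1 fun z hz => hs3 z (by simp [hz])).trans (le_max_left _ _)
      · have hy : y = x := List.eq_of_mem_replicate (h2.subset (by simp))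
        refine le_trans ?_ (le_max_right _ _)
        rw [List.length_append]
        have := le_phi (p := p) (q := x) h1 hs2.1 fun z hz =>
          ⟨(hs3 z (by simp [hz])).1, by rw [← hy]; exact hs2.2.2 z hz y (by simp)⟩
        omega
    · apply max_le hle
      obtain ⟨s, h1, h2, h3, h4⟩ := exists_phi w p x
      have := le_phi (p := p) (q := q) (h1.append (List.Sublist.refl (List.replicate m x)))
        (List.pairwise_append.mpr ⟨h2, List.pairwise_replicate.mpr (Or.inr le_rfl), by
          intro y hy z hz
          rw [List.eq_of_mem_replicate hz]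
          exact (h3 y hy).2⟩) (by
          intro y hy
          rcases List.mem_append.mp hy with hy | hy
          · exact ⟨(h3 y hy).1, (h3 y hy).2.trans h.2⟩
          · rw [List.eq_of_mem_replicate hy]; exact h)
      simpa [h4] using this
  · apply le_antisymm _ hle
    apply phi_le
    intro s hs hs2 hs3
    obtain ⟨s1, s2, rfl, h1, h2⟩ := List.sublist_append_iff.mp hs
    rw [List.pairwise_append] at hs2
    rcases s2 with _ | ⟨y, t⟩
    · rw [List.append_nil]
      exact le_phi h1 hs2.1 fun z hz => hs3 z (by simp [hz])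
    · have hy : y = x := List.eq_of_mem_replicate (h2.subset (by simp))
      exact absurd (hs3 x (by simp [hy])) h

theorem phi_self (w : List α) (p : α) : phi w p p = w.count p := by
  apply le_antisymm
  · apply phi_le
    intro s hs _ hs3
    have : s = List.replicate s.length p :=
      List.eq_replicate_iff.mpr ⟨rfl, fun x hx => le_antisymm (hs3 x hx).2 (hs3 x hx).1⟩
    have h1 := hs.count_le p
    rw [this, List.count_replicate_self] at h1
    exact h1
  · have := le_phi (w := w) (s := List.replicate (w.count p) p) (p := p) (q := p)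
      (List.replicate_sublist_iff.mpr le_rfl)
      (List.pairwise_replicate.mpr (Or.inr le_rfl))
      (fun x hx => by rw [List.eq_of_mem_replicate hx]; exact ⟨le_rfl, le_rfl⟩)
    simpa using this

theorem phi_map {β : Type*} [LinearOrder β] (f : α → β) (hf : StrictMono f) (w : List α)
    (p q : α) : phi (w.map f) (f p) (f q) = phi w p q := by
  apply le_antisymm
  · apply phi_le
    intro s hs hs2 hs3
    obtain ⟨t, ht, rfl⟩ := List.sublist_map_iff.mp hs
    rw [List.length_map]
    rw [List.pairwise_map] at hs2
    exact le_phi ht (hs2.imp fun h => hf.le_iff_le.mp h) fun x hx =>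
      ⟨hf.le_iff_le.mp (hs3 (f x) (List.mem_map_of_mem hx)).1,
        hf.le_iff_le.mp (hs3 (f x) (List.mem_map_of_mem hx)).2⟩
  · apply phi_le
    intro s hs hs2 hs3
    rw [← List.length_map (f := f)]
    refine le_phi (hs.map f) (List.pairwise_map.mpr (hs2.imp fun h => hf.le_iff_le.mpr h)) ?_
    intro y hy
    obtain ⟨x, hx, rfl⟩ := List.mem_map.mp hy
    exact ⟨hf.le_iff_le.mpr (hs3 x hx).1, hf.le_iff_le.mpr (hs3 x hx).2⟩

end Compute

/-! ## The key combinatorial fact -/

section Key

/-- Necessary conditions for a word to be grammic-equivalent to `u k`, where `a = k + 3`. -/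
structure Good (a : ℕ) (w : List ℕ) : Prop where
  c0 : w.count 0 = a
  c1 : w.count 1 = 3
  c2 : w.count 2 = 1
  c3 : w.count 3 = 3
  c4 : w.count 4 = a
  lt : ∀ x ∈ w, x ≤ 4
  h01 : a + 1 ≤ phi w 0 1
  h34 : a + 1 ≤ phi w 3 4
  h04 : phi w 0 4 ≤ a + 1
  h13 : phi w 1 3 = 4
  h12 : phi w 1 2 ≤ 3
  h23 : phi w 2 3 ≤ 3

/-- the left type -/
def F (w : List ℕ) : Prop := ∃ w', w = 3 :: w' ∧ phi w' 2 3 = 3

/-- the right type -/
def G (w : List ℕ) : Prop := ¬ ∃ w', w = w' ++ [1] ∧ phi w' 1 2 = 3

theorem sorted_two {p q : ℕ} (hpq : p < q) : ∀ s : List ℕ, s.Pairwise (· ≤ ·) →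
    (∀ x ∈ s, x = p ∨ x = q) → ∃ b c, s = List.replicate b p ++ List.replicate c q := by
  intro s
  induction s with
  | nil => intro _ _; exact ⟨0, 0, rfl⟩
  | cons x t ih =>
    intro h1 h2
    rw [List.pairwise_cons] at h1
    obtain ⟨b, c, hbc⟩ := ih h1.2 fun y hy => h2 y (List.mem_cons_of_mem _ hy)
    rcases h2 x (by simp) with rfl | rfl
    · exact ⟨b + 1, c, by rw [hbc, List.replicate_succ]; rfl⟩
    · have hb : b = 0 := by
        by_contra hb
        have : p ∈ t := by
          rw [hbc, List.mem_append]
          exact Or.inl (List.mem_replicate.mpr ⟨hb, rfl⟩)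
        exact absurd (h1.1 p this) (by omega)
      subst hb
      exact ⟨0, c + 1, by rw [hbc, List.replicate_succ]; rfl⟩

theorem split_two {w : List ℕ} {p q m : ℕ} (hpq : q = p + 1) (h : m ≤ phi w p q) :
    ∃ α β, w = α ++ β ∧ m ≤ α.count p + β.count q := by
  obtain ⟨s, h1, h2, h3, h4⟩ := exists_of_le h
  obtain ⟨b, c, rfl⟩ := sorted_two (by omega : p < q) s h2 fun x hx => by
    have := h3 x hx; omega
  obtain ⟨α, β, rfl, ha, hb⟩ := List.append_sublist_iff.mp h1
  refine ⟨α, β, rfl, ?_⟩
  have h5 := List.replicate_sublist_iff.mp ha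
  have h6 := List.replicate_sublist_iff.mp hb
  simp only [List.length_append, List.length_replicate] at h4
  omega

/-- sorted lists of length three over two letters -/
theorem three_low {s : List ℕ} {p : ℕ} (h2 : s.Pairwise (· ≤ ·))
    (h3 : ∀ x ∈ s, p ≤ x ∧ x ≤ p + 1) (h4 : s.length = 3) (hp : s.count p ≤ 1)
    (hq : s.count (p + 1) ≤ 2) : s = [p, p + 1, p + 1] := by
  obtain ⟨b, c, rfl⟩ := sorted_two (by omega : p < p + 1) s h2 fun x hx => by
    have := h3 x hx; omega
  simp only [List.length_append, List.length_replicate] at h4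
  simp only [List.count_append, List.count_replicate_self, List.count_replicate,
    beq_iff_eq] at hp hq
  have : ¬ (p + 1 = p) := by omega
  have hb : b = 1 := by
    simp at hp hq
    omega
  have hc : c = 2 := by omega
  subst hb hc
  rfl

theorem three_high {s : List ℕ} {p : ℕ} (h2 : s.Pairwise (· ≤ ·))
    (h3 : ∀ x ∈ s, p ≤ x ∧ x ≤ p + 1) (h4 : s.length = 3) (hp : s.count p ≤ 2)
    (hq : s.count (p + 1) ≤ 1) : s = [p, p, p + 1] := by
  obtain ⟨b, c, rfl⟩ := sorted_two (by omega : p < p + 1) s h2 fun x hx => by
    have := h3 x hx; omega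
  simp only [List.length_append, List.length_replicate] at h4
  simp only [List.count_append, List.count_replicate_self, List.count_replicate,
    beq_iff_eq] at hp hq
  have hb : b = 2 := by
    simp at hp hq
    omega
  have hc : c = 1 := by omega
  subst hb hc
  rfl

/-- joining two scattered subwords at a letter that occurs only once -/
theorem join_at {w l r : List ℕ} {x : ℕ} (hx : w.count x = 1) (h1 : (l ++ [x]).Sublist w)
    (h2 : (x :: r).Sublist w) : (l ++ x :: r).Sublist w := by
  have hm : x ∈ w := List.count_pos_iff.mp (by omega)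
  obtain ⟨α, β, rfl⟩ := List.append_of_mem hm
  rw [List.count_append, List.count_cons_self] at hx
  have hα : x ∉ α := List.count_eq_zero.mp (by omega)
  have hβ : x ∉ β := List.count_eq_zero.mp (by omega)
  have hl : l.Sublist α := by
    obtain ⟨l1, l2, h3, h4⟩ := List.append_sublist_iff.mp h1
    obtain ⟨h5, h6⟩ := h4
    -- `x` lies in `l2`, hence `l1` is contained in `α`
    rcases List.append_eq_append_iff.mp h3 with ⟨t, ht1, ht2⟩ | ⟨t, ht1, ht2⟩
    · -- l1 = α ++ t, x :: β = t ++ l2
      rcases t with _ | ⟨y, t⟩
      · simp at ht1; rw [ht1] at h5; exact h5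
      · exfalso
        simp only [List.cons_append, List.cons.injEq] at ht2
        obtain ⟨rfl, ht2⟩ := ht2
        apply hβ
        rw [ht2]
        exact List.mem_append_right _ (h6.subset (by simp))
    · rw [ht1]
      exact h5.trans (List.sublist_append_left _ _)
  have hr : r.Sublist β := by
    obtain ⟨s1, s2, h3, h4, h5⟩ := List.sublist_append_iff.mp h2
    rcases s1 with _ | ⟨y, t⟩
    · simp at h3
      rw [← h3] at h5
      exact List.cons_sublist_cons.mp h5
    · exfalso
      simp only [List.cons_append, List.cons.injEq] at h3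
      apply hα
      rw [h3.1]
      exact h4.subset (by simp)
  exact hl.append (hr.cons_cons x)

theorem key_mp {a : ℕ} {w : List ℕ} (hw : Good a w) (hF : F w) : G w := by
  rintro ⟨v, hv, hv3⟩
  obtain ⟨w', hw', h3⟩ := hF
  have e1 : [2, 3, 3].Sublist w' := by
    obtain ⟨s, h1, h2, h3', h4⟩ := exists_of_le h3.ge
    have hc2 : s.count 2 ≤ 1 := by
      have := (h1.trans (List.sublist_cons_self 3 w')).count_le 2
      rw [← hw', hw.c2] at this; exact this
    have hc3 : s.count 3 ≤ 2 := by
      have := h1.count_le 3
      have h5 := hw.c3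
      rw [hw', List.count_cons_self] at h5
      omega
    rw [← three_low (p := 2) h2 h3' h4 hc2 hc3]
    exact h1
  have e2 : [1, 1, 2].Sublist v := by
    obtain ⟨s, h1, h2, h3', h4⟩ := exists_of_le hv3.ge
    have hc2 : s.count 2 ≤ 1 := by
      have := (h1.trans (List.sublist_append_left v [1])).count_le 2
      rw [← hv, hw.c2] at this; exact this
    have hc1 : s.count 1 ≤ 2 := by
      have := h1.count_le 1
      have h5 := hw.c1
      rw [hv, List.count_append] at h5
      simp at h5
      omega
    rw [← three_high (p := 1) h2 h3' h4 hc1 hc2]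
    exact h1
  have e3 : [1, 1, 2, 3, 3].Sublist w := by
    apply join_at (l := [1, 1]) (r := [3, 3]) (x := 2) hw.c2
    · rw [hv]; exact e2.trans (List.sublist_append_left _ _)
    · rw [hw']; exact e1.trans (List.sublist_cons_self _ _)
  have := le_phi (p := 1) (q := 3) e3 (by decide) (by decide)
  rw [hw.h13] at this
  simp at this

/-- the case of first letter `4` -/
theorem first_four {a : ℕ} {w w' : List ℕ} (hw : Good a w) (h : w = 4 :: w') (ρ : List ℕ)
    (hρ : ρ = [1, 2, 3, 3] ∨ ρ = [1, 3, 3, 3] ∨ ρ = [1, 1, 3, 3]) (hs : ρ.Sublist w) : False := by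
  obtain ⟨α, β, hab, hc⟩ := split_two (by norm_num) hw.h34
  have h4 := hw.c4
  have h3 := hw.c3
  rw [hab, List.count_append] at h4 h3
  have hα : 1 ≤ α.count 4 := by
    rcases α with _ | ⟨y, t⟩
    · simp at hc h4; omega
    · rw [h] at hab
      simp only [List.cons_append, List.cons.injEq] at hab
      rw [← hab.1, List.count_cons_self]
      omega
  rw [hab] at hs
  obtain ⟨ρ1, ρ2, hρ', h1, h2⟩ := List.sublist_append_iff.mp hs
  have hcount := h2.count_le 3
  have hlen : ρ1.length + β.count 4 ≤ a + 1 := by
    have := le_phi (w := w) (p := 0) (q := 4)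
      (s := ρ1 ++ List.replicate (β.count 4) 4) (by
        rw [hab]; exact h1.append (List.replicate_sublist_iff.mpr le_rfl)) (by
        rw [List.pairwise_append]
        refine ⟨?_, List.pairwise_replicate.mpr (Or.inr le_rfl), ?_⟩
        · apply List.Pairwise.sublist (List.sublist_append_left ρ1 ρ2)
          rw [← hρ']
          rcases hρ with rfl | rfl | rfl <;> decide
        · intro x hx y hy
          rw [List.eq_of_mem_replicate hy]
          apply hw.lt
          rw [hab]
          exact List.mem_append_left _ (h1.subset hx)) (by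
        intro x hx
        refine ⟨Nat.zero_le _, ?_⟩
        rcases List.mem_append.mp hx with hx | hx
        · apply hw.lt
          rw [hab]
          exact List.mem_append_left _ (h1.subset hx)
        · exact (List.eq_of_mem_replicate hx).le)
    have h5 := hw.h04
    rw [List.length_append, List.length_replicate] at this
    omega
  have hb : 2 ≤ α.count 3 := by omega
  have hlen2 : ρ1.length ≤ α.count 3 := by omega
  have hcount2 : ρ2.count 3 + α.count 3 ≤ 3 := by omega
  have e1 : ρ2 = ρ.drop ρ1.length := by rw [hρ']; simp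
  have e2 : ρ1.length ≤ 4 := by
    have := congrArg List.length hρ'
    rw [List.length_append] at this
    rcases hρ with rfl | rfl | rfl <;> simp at this <;> omega
  rw [e1] at hcount2
  clear e1 hlen hcount h1 h2 hρ' hs
  generalize ρ1.length = i at *
  rcases hρ with rfl | rfl | rfl
  all_goals
    interval_cases i <;> simp at hcount2 <;> omega

/-- the case of last letter `0` -/
theorem last_zero {a : ℕ} {w w' : List ℕ} (hw : Good a w) (h : w = w' ++ [0]) (ρ : List ℕ)
    (hρ : ρ = [1, 1, 2, 3] ∨ ρ = [1, 1, 1, 3] ∨ ρ = [1, 1, 3, 3]) (hs : ρ.Sublist w) : False := by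
  obtain ⟨α, β, hab, hc⟩ := split_two (by norm_num) hw.h01
  have h0 := hw.c0
  have h1' := hw.c1
  rw [hab, List.count_append] at h0 h1'
  have hβ : 1 ≤ β.count 0 := by
    rcases List.eq_nil_or_concat β with rfl | ⟨t, y, rfl⟩
    · simp at hc h0; omega
    · rw [h, List.concat_eq_append, ← List.append_assoc] at hab
      have := (List.append_inj' hab rfl).2
      simp only [List.cons.injEq, and_true] at this
      rw [← this, List.concat_eq_append, List.count_append]
      simp
  rw [hab] at hs
  obtain ⟨ρ1, ρ2, hρ', h1, h2⟩ := List.sublist_append_iff.mp hs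
  have hcount := h1.count_le 1
  have hmem : ∀ x ∈ ρ2, x ≤ 4 := fun x hx => by
    apply hw.lt
    rw [hab]
    exact List.mem_append_right _ (h2.subset hx)
  have hlen : α.count 0 + ρ2.length ≤ a + 1 := by
    have := le_phi (w := w) (p := 0) (q := 4)
      (s := List.replicate (α.count 0) 0 ++ ρ2) (by
        rw [hab]; exact (List.replicate_sublist_iff.mpr le_rfl).append h2) (by
        rw [List.pairwise_append]
        refine ⟨List.pairwise_replicate.mpr (Or.inr le_rfl), ?_, ?_⟩
        · apply List.Pairwise.sublist (List.sublist_append_right ρ1 ρ2)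
          rw [← hρ']
          rcases hρ with rfl | rfl | rfl <;> decide
        · intro x hx y hy
          rw [List.eq_of_mem_replicate hx]
          exact Nat.zero_le _) (by
        intro x hx
        refine ⟨Nat.zero_le _, ?_⟩
        rcases List.mem_append.mp hx with hx | hx
        · rw [List.eq_of_mem_replicate hx]; omega
        · exact hmem x hx)
    have h5 := hw.h04
    rw [List.length_append, List.length_replicate] at this
    omega
  have hb : 2 ≤ β.count 1 := by omega
  have hlen2 : ρ2.length ≤ β.count 1 := by omega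
  have hcount2 : ρ1.count 1 + β.count 1 ≤ 3 := by omega
  have e1 : ρ1 = ρ.take ρ1.length := by rw [hρ']; simp
  have e2 : ρ1.length + ρ2.length = 4 := by
    have := congrArg List.length hρ'
    rw [List.length_append] at this
    rcases hρ with rfl | rfl | rfl <;> simp at this <;> omega
  rw [e1] at hcount2
  clear e1 hlen hcount h1 h2 hρ' hs
  have e3 : ρ1.length ≤ 4 := by omega
  have hlen3 : 4 ≤ β.count 1 + ρ1.length := by omega
  clear e2
  generalize ρ1.length = i at *
  rcases hρ with rfl | rfl | rfl
  all_goals
    interval_cases i <;> simp at hcount2 <;> omega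

/-- the sorted words of length `4` over the letters `1, 2, 3` -/
theorem four_letters {a : ℕ} {w : List ℕ} (hw : Good a w) :
    [1, 1, 1, 3].Sublist w ∨ [1, 1, 2, 3].Sublist w ∨ [1, 1, 3, 3].Sublist w ∨
      [1, 2, 3, 3].Sublist w ∨ [1, 3, 3, 3].Sublist w := by
  obtain ⟨s, h1, h2, h3, h4⟩ := exists_of_le hw.h13.ge
  have c1 := h1.count_le 1
  have c2 := h1.count_le 2
  have c3 := h1.count_le 3
  rw [hw.c1] at c1
  rw [hw.c2] at c2
  rw [hw.c3] at c3
  have hx1 : ¬ [1, 1, 1, 2].Sublist w := fun h => by
    have := le_phi (p := 1) (q := 2) h (by decide) (by decide)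
    have h5 := hw.h12
    simp at this
    omega
  have hx2 : ¬ [2, 3, 3, 3].Sublist w := fun h => by
    have := le_phi (p := 2) (q := 3) h (by decide) (by decide)
    have h5 := hw.h23
    simp at this
    omega
  match s, h4 with
  | [x, y, z, t], _ =>
    have b1 := h3 x (by simp)
    have b2 := h3 y (by simp)
    have b3 := h3 z (by simp)
    have b4 := h3 t (by simp)
    simp only [List.pairwise_cons, List.mem_cons, List.not_mem_nil, or_false, forall_eq_or_imp,
      forall_eq] at h2
    obtain ⟨⟨o1, -, -⟩, ⟨o2, -⟩, o3, -⟩ := h2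
    obtain ⟨x1, x2⟩ := b1
    obtain ⟨y1, y2⟩ := b2
    obtain ⟨z1, z2⟩ := b3
    obtain ⟨t1, t2⟩ := b4
    interval_cases x <;> interval_cases y <;> interval_cases z <;> interval_cases t <;>
      first
      | omega
      | (exfalso; simp at c1 c2 c3; done)
      | exact absurd h1 hx1
      | exact absurd h1 hx2
      | simp only [h1, true_or, or_true]

theorem key_mpr {a : ℕ} {w : List ℕ} (hw : Good a w) (hG : G w) : F w := by
  by_contra hF
  have hne : w ≠ [] := by
    rintro rfl
    have := hw.c1
    simp at this
  -- the first letter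
  obtain ⟨c, w', hw'⟩ := List.exists_cons_of_ne_nil hne
  obtain ⟨v, d, hv⟩ := (List.eq_nil_or_concat w).resolve_left hne
  rw [List.concat_eq_append] at hv
  have hc4 : c ≤ 4 := hw.lt c (by rw [hw']; simp)
  have hd4 : d ≤ 4 := hw.lt d (by rw [hv]; simp)
  have hc : 3 ≤ c := by
    by_contra hc
    obtain ⟨s, h1, h2, h3, h4⟩ := exists_of_le hw.h34
    have h1' : s.Sublist w' := by
      rw [hw'] at h1
      cases h1 with
      | cons _ h => exact h
      | cons_cons _ h =>
        have := h3 c (by simp)
        omega
    have := le_phi (w := w) (s := c :: s) (p := 0) (q := 4) (by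
      rw [hw']; exact h1'.cons_cons c) (List.pairwise_cons.mpr
        ⟨fun y hy => by have := h3 y hy; omega, h2⟩) (by
        intro x hx
        rcases List.mem_cons.mp hx with rfl | hx
        · omega
        · have := h3 x hx; omega)
    have h5 := hw.h04
    rw [List.length_cons] at this
    omega
  have hd : d ≤ 1 := by
    by_contra hd
    obtain ⟨s, h1, h2, h3, h4⟩ := exists_of_le hw.h01
    have h1' : s.Sublist v := by
      rw [hv] at h1
      obtain ⟨s1, s2, rfl, h5, h6⟩ := List.sublist_append_iff.mp h1
      rcases s2 with _ | ⟨y, t⟩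
      · simpa using h5
      · exfalso
        have h7 := h6.subset (List.mem_cons_self)
        have h8 := h3 y (by simp)
        simp at h7
        omega
    have := le_phi (w := w) (s := s ++ [d]) (p := 0) (q := 4) (by
      rw [hv]; exact h1'.append (List.Sublist.refl _)) (by
        rw [List.pairwise_append]
        refine ⟨h2, by simp, ?_⟩
        intro x hx y hy
        have := h3 x hx
        simp at hy
        omega) (by
        intro x hx
        rcases List.mem_append.mp hx with hx | hx
        · have := h3 x hx; omega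
        · simp at hx; omega)
    have h5 := hw.h04
    rw [List.length_append] at this
    simp at this
    omega
  have hf : c = 3 → phi w' 2 3 ≤ 2 := by
    rintro rfl
    have h1 : phi w' 2 3 ≤ phi w 2 3 := phi_mono (by rw [hw']; exact List.sublist_cons_self _ _)
    have h2 := hw.h23
    have h3 : phi w' 2 3 ≠ 3 := fun h => hF ⟨w', hw', h⟩
    omega
  have hg : d = 1 → phi v 1 2 ≤ 2 := by
    rintro rfl
    have h1 : phi v 1 2 ≤ phi w 1 2 := phi_mono (by rw [hv]; exact List.sublist_append_left _ _)
    have h2 := hw.h12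
    have h3 : phi v 1 2 ≠ 3 := fun h => hG ⟨v, hv, h⟩
    omega
  have E1 : ∀ ρ : List ℕ, ρ = [1, 2, 3, 3] ∨ ρ = [1, 3, 3, 3] → ¬ ρ.Sublist w := by
    intro ρ hρ hs
    rcases (by omega : c = 3 ∨ c = 4) with rfl | rfl
    · have hf := hf rfl
      have h1 : ρ.Sublist w' := by
        rw [hw'] at hs
        cases hs with
        | cons _ h => exact h
        | cons_cons _ h => rcases hρ with hρ | hρ <;> simp at hρ
      rcases hρ with rfl | rfl
      · have := le_phi (p := 2) (q := 3) ((List.sublist_cons_self _ _).trans h1) (by decide)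
          (by decide)
        simp at this
        omega
      · have := le_phi (p := 2) (q := 3) ((List.sublist_cons_self _ _).trans h1) (by decide)
          (by decide)
        simp at this
        omega
    · exact first_four hw hw' ρ (by tauto) hs
  have E2 : ∀ ρ : List ℕ, ρ = [1, 1, 2, 3] ∨ ρ = [1, 1, 1, 3] → ¬ ρ.Sublist w := by
    intro ρ hρ hs
    rcases (by omega : d = 0 ∨ d = 1) with rfl | rfl
    · exact last_zero hw hv ρ (by tauto) hs
    · have hg := hg rfl
      have h1 : ρ.dropLast.Sublist v := by
        rw [hv] at hs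
        obtain ⟨s1, s2, h4, h5, h6⟩ := List.sublist_append_iff.mp hs
        rcases List.eq_nil_or_concat s2 with rfl | ⟨t, y, rfl⟩
        · rw [List.append_nil] at h4
          rw [h4]
          exact (List.dropLast_sublist _).trans h5
        · exfalso
          have h7 := h6.subset (show y ∈ _ by rw [List.concat_eq_append]; simp)
          rw [List.concat_eq_append, ← List.append_assoc] at h4
          have h8 := congrArg (fun l => l.getLast?) h4
          simp at h7
          subst h7
          rcases hρ with rfl | rfl <;> simp at h8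
      rcases hρ with rfl | rfl
      · have := le_phi (p := 1) (q := 2) h1 (by decide) (by decide)
        simp at this
        omega
      · have := le_phi (p := 1) (q := 2) h1 (by decide) (by decide)
        simp at this
        omega
  rcases four_letters hw with h | h | h | h | h
  · exact E2 _ (by simp) h
  · exact E2 _ (by simp) h
  · -- `2244` is a scattered subword
    rcases (by omega : c = 3 ∨ c = 4) with rfl | rfl
    · rcases (by omega : d = 0 ∨ d = 1) with rfl | rfl
      · exact last_zero hw hv _ (by simp) h
      · have hf := hf rfl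
        have hg := hg rfl
        -- `w = 3 :: m ++ [1]`
        obtain ⟨m, hm⟩ : ∃ m, w = 3 :: (m ++ [1]) := by
          rw [hw'] at hv
          rcases v with _ | ⟨y, t⟩
          · simp at hv
          · simp only [List.cons_append, List.cons.injEq] at hv
            exact ⟨t, by rw [hw', hv.2]⟩
        have hmw' : w' = m ++ [1] := by
          rw [hm] at hw'
          simpa using hw'.symm
        have hmv : v = 3 :: m := by
          rw [hm, ← List.cons_append] at hv
          exact (List.append_inj' hv rfl).1.symm
        have h' : [1, 1, 3, 3].Sublist m := by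
          rw [hm] at h
          have h1 : [1, 1, 3, 3].Sublist (m ++ [1]) := by
            cases h with
            | cons _ h => exact h
          obtain ⟨s1, s2, h4, h5, h6⟩ := List.sublist_append_iff.mp h1
          rcases List.eq_nil_or_concat s2 with rfl | ⟨t, y, rfl⟩
          · rw [List.append_nil] at h4
            rw [h4]; exact h5
          · exfalso
            have h7 := h6.subset (show y ∈ _ by rw [List.concat_eq_append]; simp)
            rw [List.concat_eq_append, ← List.append_assoc] at h4
            have h8 := congrArg (fun l => l.getLast?) h4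
            simp at h7
            subst h7
            simp at h8
        have h2m : 2 ∈ m := by
          have h5 : 2 ∈ w := List.count_pos_iff.mp (by rw [hw.c2]; omega)
          rw [hm] at h5
          simpa using h5
        obtain ⟨α, β, rfl, ha, hb⟩ := List.append_sublist_iff.mp
          (show ([1, 1] ++ [3, 3]).Sublist m from h')
        rcases List.mem_append.mp h2m with h2 | h2
        · have h6 : ([2] ++ [3, 3]).Sublist (α ++ β) :=
            (List.singleton_sublist.mpr h2).append hb
          have := le_phi (p := 2) (q := 3) (h6.trans (List.sublist_append_left _ [1])) (by decide)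
            (by decide)
          rw [hmw'] at hf
          simp at this hf
          omega
        · have h6 : ([1, 1] ++ [2]).Sublist (α ++ β) :=
            ha.append (List.singleton_sublist.mpr h2)
          have := le_phi (p := 1) (q := 2) (h6.trans (List.sublist_cons_self 3 _)) (by decide)
            (by decide)
          rw [hmv] at hg
          simp at this
          omega
    · exact first_four hw hw' _ (by simp) h
  · exact E1 _ (by simp) h
  · exact E1 _ (by simp) h

end Key

/-! ## The two families of words -/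

section Words

/-- `5·4455·2234` -/
def U : List ℕ := [4, 3, 3, 4, 4, 1, 1, 2, 3]

/-- `4·3555·2244` -/
def V : List ℕ := [3, 2, 4, 4, 4, 1, 1, 3, 3]

/-- `P·5^k·1^(k+3)·2` -/
def word (P : List ℕ) (k : ℕ) : List ℕ :=
  ((P ++ List.replicate k 4) ++ List.replicate (k + 3) 0) ++ List.replicate 1 1

/-- computable form of `phi (word P k)` -/
def ev (P : List ℕ) (k p q : ℕ) : ℕ :=
  let A : ℕ → ℕ → ℕ := fun p q => if p ≤ 4 ∧ 4 ≤ q then max (cphi P p q) (cphi P p 4 + k)
    else cphi P p q
  let B : ℕ → ℕ → ℕ := fun p q => if p ≤ 0 ∧ 0 ≤ q then max (A p q) (A p 0 + (k + 3)) else A p q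
  if p ≤ 1 ∧ 1 ≤ q then max (B p q) (B p 1 + 1) else B p q

theorem phi_word (P : List ℕ) (k p q : ℕ) : phi (word P k) p q = ev P k p q := by
  simp only [word, phi_append_replicate, phi_eq_cphi P, ev]

theorem U_eq_aux (k : ℕ) (p q : ℕ) (hpq : p ≤ q) (hq : q ≤ 4) :
    phi (word U k) p q = phi (word V k) p q := by
  have hp : p ≤ 4 := hpq.trans hq
  interval_cases p <;> interval_cases q <;>
    first
    | omega
    | simp [phi_word, ev, cphi, U, V]

theorem mem_word {P : List ℕ} (hP : ∀ x ∈ P, x ≤ 4) (k : ℕ) : ∀ x ∈ word P k, x ≤ 4 := by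
  intro x hx
  simp only [word, List.mem_append, List.mem_replicate] at hx
  rcases hx with ((hx | ⟨-, rfl⟩) | ⟨-, rfl⟩) | ⟨-, rfl⟩
  · exact hP x hx
  all_goals omega

theorem mem_U (k : ℕ) : ∀ x ∈ word U k, x ≤ 4 := mem_word (by decide) k

theorem mem_V (k : ℕ) : ∀ x ∈ word V k, x ≤ 4 := mem_word (by decide) k

theorem phi_congr {w : List ℕ} {p q p' q' : ℕ}
    (h : ∀ x ∈ w, (p ≤ x ∧ x ≤ q ↔ p' ≤ x ∧ x ≤ q')) : phi w p q = phi w p' q' := by
  apply le_antisymm
  · exact phi_le fun s h1 h2 h3 => le_phi h1 h2 fun x hx => (h x (h1.subset hx)).mp (h3 x hx)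
  · exact phi_le fun s h1 h2 h3 => le_phi h1 h2 fun x hx => (h x (h1.subset hx)).mpr (h3 x hx)

theorem U_eq (k : ℕ) (p q : ℕ) (hpq : p ≤ q) : phi (word U k) p q = phi (word V k) p q := by
  rcases Nat.lt_or_ge 4 p with hp | hp
  · have h : ∀ w : List ℕ, (∀ x ∈ w, x ≤ 4) → phi w p q = 0 := by
      intro w hw
      apply Nat.le_zero.mp
      apply phi_le
      intro s h1 h2 h3
      rcases s with _ | ⟨y, t⟩
      · simp
      · have := hw y (h1.subset (by simp))
        have := (h3 y (by simp)).1
        omega
    rw [h _ (mem_U k), h _ (mem_V k)]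
  · rcases Nat.lt_or_ge 4 q with hq | hq
    · rw [phi_congr (w := word U k) (p' := p) (q' := 4) fun x hx => by
        have := mem_U k x hx; omega,
        phi_congr (w := word V k) (p' := p) (q' := 4) fun x hx => by
        have := mem_V k x hx; omega]
      exact U_eq_aux k p 4 hp le_rfl
    · exact U_eq_aux k p q hpq hq

/-- every word with the same values of `phi` as `word U k` is good -/
theorem good_of {n : ℕ} (hn : 5 ≤ n) {k : ℕ} {W : List ℕ} (hlt : ∀ x ∈ W, x < n)
    (h : ∀ p q, p ≤ q → q < n → phi W p q = phi (word U k) p q) : Good (k + 3) W := by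
  have hc : ∀ p, p < n → W.count p = phi (word U k) p p := fun p hp => by
    rw [← phi_self, h p p le_rfl hp]
  constructor
  · rw [hc 0 (by omega)]; simp [phi_word, ev, cphi, U]
  · rw [hc 1 (by omega)]; simp [phi_word, ev, cphi, U]
  · rw [hc 2 (by omega)]; simp [phi_word, ev, cphi, U]
  · rw [hc 3 (by omega)]; simp [phi_word, ev, cphi, U]
  · rw [hc 4 (by omega)]; simp [phi_word, ev, cphi, U]; omega
  · intro x hx
    by_contra hx4
    have h1 := hc x (hlt x hx)
    rw [phi_self] at h1
    have h2 : 0 < W.count x := List.count_pos_iff.mpr hx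
    have h3 : x ∈ word U k := List.count_pos_iff.mp (by omega)
    exact hx4 (mem_U k x h3)
  · rw [h 0 1 (by omega) (by omega)]; simp [phi_word, ev, cphi, U]
  · rw [h 3 4 (by omega) (by omega)]; simp [phi_word, ev, cphi, U]; omega
  · rw [h 0 4 (by omega) (by omega)]; simp [phi_word, ev, cphi, U]; omega
  · rw [h 1 3 (by omega) (by omega)]; simp [phi_word, ev, cphi, U]
  · rw [h 1 2 (by omega) (by omega)]; simp [phi_word, ev, cphi, U]
  · rw [h 2 3 (by omega) (by omega)]; simp [phi_word, ev, cphi, U]

theorem not_F (k : ℕ) : ¬ F (word U k) := by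
  rintro ⟨w', h, -⟩
  simp [word, U] at h

theorem F_V (k : ℕ) : F (word V k) := by
  refine ⟨word [2, 4, 4, 4, 1, 1, 3, 3] k, rfl, ?_⟩
  rw [phi_word]
  simp [ev, cphi]

end Words

/-! ## The main theorem -/

section Main

/-- a word over the natural numbers as a word over `Fin n` -/
def toWord (n : ℕ) (hn : 5 ≤ n) (w : List ℕ) : FreeMonoid (Fin n) :=
  FreeMonoid.ofList (w.map fun i => ⟨i % n, Nat.mod_lt _ (by omega)⟩)

/-- a word over `Fin n` as a word over the natural numbers -/
def nat {n : ℕ} (w : FreeMonoid (Fin n)) : List ℕ := w.toList.map Fin.val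

theorem nat_mul {n : ℕ} (u v : FreeMonoid (Fin n)) : nat (u * v) = nat u ++ nat v := by
  simp [nat]

theorem nat_toWord {n : ℕ} (hn : 5 ≤ n) (w : List ℕ) (hw : ∀ x ∈ w, x ≤ 4) :
    nat (toWord n hn w) = w := by
  unfold nat toWord
  rw [FreeMonoid.toList_ofList, List.map_map]
  conv_rhs => rw [← List.map_id w]
  apply List.map_congr_left
  intro x hx
  have := hw x hx
  exact Nat.mod_eq_of_lt (by omega)

theorem nat_lt {n : ℕ} (w : FreeMonoid (Fin n)) : ∀ x ∈ nat w, x < n := by
  intro x hx
  obtain ⟨y, -, rfl⟩ := List.mem_map.mp hx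
  exact y.2

theorem gram_iff {n : ℕ} (u v : FreeMonoid (Fin n)) :
    gram n u v ↔ ∀ p q, p ≤ q → q < n → phi (nat u) p q = phi (nat v) p q := by
  have key : ∀ (w : FreeMonoid (Fin n)) (p q : Fin n), phi w.toList p q = phi (nat w) p.1 q.1 :=
    fun w p q => (phi_map Fin.val (fun _ _ h => h) w.toList p q).symm
  constructor
  · intro h p q hpq hq
    have := h ⟨p, by omega⟩ ⟨q, hq⟩ hpq
    rw [key, key] at this
    exact this
  · intro h p q hpq
    rw [key, key]
    exact h p.1 q.1 hpq q.2

theorem not_conGen (n : ℕ) (hn : 5 ≤ n) (R : Set (FreeMonoid (Fin n) × FreeMonoid (Fin n)))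
    (hR : R.Finite) : conGen (fun u v => (u, v) ∈ R) ≠ gram n := by
  intro hgen
  -- a bound for the lengths
  obtain ⟨N, hN⟩ : ∃ N, ∀ r ∈ R, r.1.toList.length ≤ N := by
    obtain ⟨N, hN⟩ := (hR.image fun r => r.1.toList.length).bddAbove
    exact ⟨N, fun r hr => hN ⟨r, hr, rfl⟩⟩
  set u := toWord n hn (word U N) with hu
  have hnu : nat u = word U N := nat_toWord hn _ (mem_U N)
  have hgood : ∀ w, gram n w u → Good (N + 3) (nat w) := by
    intro w hw
    apply good_of hn (nat_lt w)
    intro p q hpq hq
    rw [(gram_iff w u).mp hw p q hpq hq, hnu]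
  let E : Con (FreeMonoid (Fin n)) :=
    { r := fun w w' => ∀ x y, gram n (x * w * y) (x * w' * y) ∧
        (gram n (x * w * y) u → (F (nat (x * w * y)) ↔ F (nat (x * w' * y))))
      iseqv := ⟨fun w x y => ⟨(gram n).refl _, fun _ => Iff.rfl⟩,
        fun {w w'} h x y => ⟨(gram n).symm (h x y).1, fun h' =>
          ((h x y).2 ((gram n).trans (h x y).1 h')).symm⟩,
        fun {w w' w''} h h' x y => ⟨(gram n).trans (h x y).1 (h' x y).1, fun h'' =>
          ((h x y).2 h'').trans ((h' x y).2 ((gram n).trans ((gram n).symm (h x y).1) h''))⟩⟩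
      mul' := by
        intro w w' v v' hw hv x y
        have h1 := hw x (v * y)
        have h2 := hv (x * w') y
        simp only [← mul_assoc] at h1 h2 ⊢
        exact ⟨(gram n).trans h1.1 h2.1, fun h => (h1.2 h).trans
          (h2.2 ((gram n).trans ((gram n).symm h1.1) h))⟩ }
  have hE : conGen (fun u v => (u, v) ∈ R) ≤ E := by
    apply Con.conGen_le.2
    intro r s hrs x y
    have hrs' : gram n r s := by
      rw [← hgen]
      exact ConGen.Rel.of _ _ hrs
    have hxy : gram n (x * r * y) (x * s * y) :=
      (gram n).mul ((gram n).mul ((gram n).refl x) hrs') ((gram n).refl y)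
    refine ⟨hxy, fun hru => ?_⟩
    have hsu : gram n (x * s * y) u := (gram n).trans ((gram n).symm hxy) hru
    have g1 := hgood _ hru
    have g2 := hgood _ hsu
    -- the word is longer than `r`
    have hlen : N < (nat (x * r * y)).length := by
      have h1 := g1.c0
      have h2 := List.count_le_length (a := 0) (l := nat (x * r * y))
      omega
    have hrN := hN (r, s) hrs
    have key : ∀ {P : List ℕ → Prop}, (∀ w, Good (N + 3) w → (P w ↔ F w)) →
        ((P (nat (x * r * y)) ↔ P (nat (x * s * y))) →
          (F (nat (x * r * y)) ↔ F (nat (x * s * y)))) := by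
      intro P hP h
      rw [← hP _ g1, ← hP _ g2]
      exact h
    rcases hx : x.toList with _ | ⟨c, x'⟩
    · -- `x` is empty, so `y` is not
      rcases List.eq_nil_or_concat y.toList with hy | ⟨y', d, hy⟩
      · exfalso
        rw [nat_mul, nat_mul] at hlen
        simp [nat, hx, hy] at hlen
        exact absurd hrN (by simpa using hlen)
      · apply key (P := G) fun w hw => ⟨key_mpr hw, key_mp hw⟩
        have hy2 : y = FreeMonoid.ofList y' * FreeMonoid.of d := by
          apply FreeMonoid.toList.injective
          rw [hy, List.concat_eq_append]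
          rfl
        have e : ∀ z : FreeMonoid (Fin n), nat (x * z * y) =
            nat (x * z * FreeMonoid.ofList y') ++ [d.1] := by
          intro z
          rw [hy2, ← mul_assoc, nat_mul _ (FreeMonoid.of d)]
          rfl
        have hz : gram n (x * r * FreeMonoid.ofList y') (x * s * FreeMonoid.ofList y') :=
          (gram n).mul ((gram n).mul ((gram n).refl x) hrs') ((gram n).refl _)
        have hphi := (gram_iff _ _).mp hz 1 2 (by omega) (by omega)
        unfold G
        rw [e r, e s]
        have aux : ∀ z : FreeMonoid (Fin n),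
            (∃ w', nat (x * z * FreeMonoid.ofList y') ++ [d.1] = w' ++ [1] ∧ phi w' 1 2 = 3) ↔
            d.1 = 1 ∧ phi (nat (x * z * FreeMonoid.ofList y')) 1 2 = 3 := by
          intro z
          constructor
          · rintro ⟨w', h1, h2⟩
            obtain ⟨h3, h4⟩ := List.append_inj' h1 rfl
            rw [h3]
            exact ⟨by simpa using h4, h2⟩
          · rintro ⟨h1, h2⟩
            exact ⟨_, by rw [h1], h2⟩
        rw [aux r, aux s, hphi]
    · have hx2 : x = FreeMonoid.of c * FreeMonoid.ofList x' := by
        apply FreeMonoid.toList.injective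
        rw [hx]
        rfl
      have e : ∀ z : FreeMonoid (Fin n), nat (x * z * y) =
          c.1 :: nat (FreeMonoid.ofList x' * z * y) := by
        intro z
        rw [hx2, mul_assoc, mul_assoc, nat_mul, ← mul_assoc]
        rfl
      have hz : gram n (FreeMonoid.ofList x' * r * y) (FreeMonoid.ofList x' * s * y) :=
        (gram n).mul ((gram n).mul ((gram n).refl _) hrs') ((gram n).refl y)
      have hphi := (gram_iff _ _).mp hz 2 3 (by omega) (by omega)
      unfold F
      rw [e r, e s]
      have aux : ∀ z : FreeMonoid (Fin n),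
          (∃ w', c.1 :: nat (FreeMonoid.ofList x' * z * y) = 3 :: w' ∧ phi w' 2 3 = 3) ↔
          c.1 = 3 ∧ phi (nat (FreeMonoid.ofList x' * z * y)) 2 3 = 3 := by
        intro z
        constructor
        · rintro ⟨w', h1, h2⟩
          simp only [List.cons.injEq] at h1
          rw [h1.2]
          exact ⟨h1.1, h2⟩
        · rintro ⟨h1, h2⟩
          exact ⟨_, by rw [h1], h2⟩
      rw [aux r, aux s, hphi]
  -- the two words are equivalent
  have huv : gram n u (toWord n hn (word V N)) := by
    rw [gram_iff, hnu, nat_toWord hn _ (mem_V N)]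
    exact fun p q hpq _ => U_eq N p q hpq
  rw [← hgen] at huv
  have := (hE huv) 1 1
  simp only [one_mul, mul_one] at this
  have h2 := this.2 ((gram n).refl _)
  rw [hnu, nat_toWord hn _ (mem_V N)] at h2
  exact not_F N (h2.mpr (F_V N))

/-- If the quotient of a finitely generated free monoid by a congruence is finitely presented,
then the congruence is generated by a finite set of pairs. -/
theorem conGen_of_fp {X : Type} [Finite X] (C : Con (FreeMonoid X))
    (h : IsFinitelyPresented C.Quotient) :
    ∃ S : Set (FreeMonoid X × FreeMonoid X), S.Finite ∧ conGen (fun u v => (u, v) ∈ S) = C := by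
  obtain ⟨A, _, R, hR, ⟨e⟩⟩ := h
  let D : Con (FreeMonoid A) := conGen fun u v => (u, v) ∈ R
  change C.Quotient ≃* D.Quotient at e
  -- lifts of the generators
  have h1 : ∀ a : A, ∃ w : FreeMonoid X, e (C.mk' w) = D.mk' (FreeMonoid.of a) := by
    intro a
    obtain ⟨w, hw⟩ := Con.mk'_surjective (e.symm (D.mk' (FreeMonoid.of a)))
    exact ⟨w, by rw [hw, MulEquiv.apply_symm_apply]⟩
  have h2 : ∀ x : X, ∃ w : FreeMonoid A, D.mk' w = e (C.mk' (FreeMonoid.of x)) := fun x =>
    Con.mk'_surjective _
  choose f hf using h1
  choose g hg using h2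
  let α : FreeMonoid A →* FreeMonoid X := FreeMonoid.lift f
  let β : FreeMonoid X →* FreeMonoid A := FreeMonoid.lift g
  have hα : ∀ w, e (C.mk' (α w)) = D.mk' w := by
    have : (e.toMonoidHom.comp (C.mk'.comp α)) = D.mk' := by
      apply FreeMonoid.hom_eq
      intro a
      simpa [α] using hf a
    exact fun w => DFunLike.congr_fun this w
  have hβ : ∀ w, D.mk' (β w) = e (C.mk' w) := by
    have : D.mk'.comp β = e.toMonoidHom.comp C.mk' := by
      apply FreeMonoid.hom_eq
      intro a
      simpa [β] using hg a
    exact fun w => DFunLike.congr_fun this w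
  let S : Set (FreeMonoid X × FreeMonoid X) :=
    (fun r : FreeMonoid A × FreeMonoid A => (α r.1, α r.2)) '' R ∪
      Set.range fun x : X => (FreeMonoid.of x, α (β (FreeMonoid.of x)))
  refine ⟨S, (hR.image _).union (Set.finite_range _), le_antisymm ?_ ?_⟩
  · apply Con.conGen_le.2
    intro u v huv
    rw [← Con.eq]
    rcases huv with ⟨⟨r, s⟩, hrs, h⟩ | ⟨x, h⟩
    · simp only [Prod.mk.injEq] at h
      obtain ⟨rfl, rfl⟩ := h
      apply e.injective
      have h3 := hα r
      have h4 := hα s
      simp only [Con.coe_mk'] at h3 h4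
      rw [h3, h4, Con.eq]
      exact ConGen.Rel.of _ _ hrs
    · simp only [Prod.mk.injEq] at h
      obtain ⟨rfl, rfl⟩ := h
      apply e.injective
      have h3 := hα (β (FreeMonoid.of x))
      have h4 := hβ (FreeMonoid.of x)
      simp only [Con.coe_mk'] at h3 h4
      rw [h3, h4]
  · intro u v huv
    let T : Con (FreeMonoid X) := conGen fun u v => (u, v) ∈ S
    change T u v
    have h3 : ∀ w, T w (α (β w)) := by
      intro w
      rw [← Con.eq]
      have : T.mk' = T.mk'.comp (α.comp β) := by
        apply FreeMonoid.hom_eq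
        intro x
        simp only [MonoidHom.comp_apply, Con.coe_mk']
        rw [Con.eq]
        exact ConGen.Rel.of _ _ (Or.inr ⟨x, rfl⟩)
      exact DFunLike.congr_fun this w
    have h4 : ∀ r s, D r s → T (α r) (α s) := by
      intro r s hrs
      have : D ≤ Con.comap α (map_mul α) T := by
        apply Con.conGen_le.2
        intro r s hrs
        exact ConGen.Rel.of _ _ (Or.inl ⟨(r, s), hrs, rfl⟩)
      exact this hrs
    have h5 : D (β u) (β v) := by
      rw [← Con.eq]
      have h6 := hβ u
      have h7 := hβ v
      simp only [Con.coe_mk'] at h6 h7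
      rw [h6, h7, (Con.eq _).mpr huv]
    exact T.trans (h3 u) (T.trans (h4 _ _ h5) (T.symm (h3 v)))

/-- For every `n ≥ 5` the grammic monoid of rank `n` is not finitely presented. -/
theorem result : ∀ n : ℕ, 5 ≤ n → ¬ IsFinitelyPresented (Grammic n) := by
  intro n hn hfp
  obtain ⟨R, hR, h⟩ := conGen_of_fp (gram n) hfp
  exact not_conGen n hn R hR h

end Main

end Pool.Agent.Results.MP_be768e_al.NotFinitelyPresented
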